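import Pool.Agent.Helper75.PX.Stmts

set_option autoImplicit false

namespace Pool.Agent.Helper75.PX

universe u

variable {F K A : Type u} [Field F] [Field K] [Algebra F K] [Ring A] [Algebra K A]

theorem CL4_smul (L : IntermediateField F K) (S : Submodule L A) {l : K} (hl : l ∈ L) {x : A}
    (hx : x ∈ S) : l • x ∈ S := S.smul_mem (⟨l, hl⟩ : L) hx

theorem CL4_mem (L : IntermediateField F K) {α β z w : A} {a b p r : K} {v : Fin 4 → K}
    (h : D4 α β z w a b p r v) (ha : a ∈ L) (hb : b ∈ L) :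
    ∀ i j k l : ℕ, k < 2 → l < 2 →
      α ^ i * β ^ j * w ^ k * z ^ l ∈ Submodule.span L (Set.range (e4 α β z w)) := by
  intro i
  induction i using Nat.strong_induction_on with
  | _ i ih =>
    intro j k l hk hl
    by_cases hi : i < 2
    · clear ih
      induction j using Nat.strong_induction_on with
      | _ j jh =>
        by_cases hj : j < 2
        · exact Submodule.subset_span ⟨(⟨i, hi⟩, ⟨j, hj⟩, ⟨k, hk⟩, ⟨l, hl⟩), rfl⟩
        · obtain ⟨j', rfl⟩ : ∃ j', j = j' + 2 := ⟨j - 2, by omega⟩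
          have h1 := CL4_smul L _ hb (jh j' (by omega))
          have e : α ^ i * β ^ (j'+2) * w ^ k * z ^ l
              = b • (α ^ i * β ^ j' * w ^ k * z ^ l) := by
            rw [pow_add β, pow_two, h.hbb, ← Algebra.commutes, ← Algebra.smul_def,
              mul_smul_comm, smul_mul_assoc, smul_mul_assoc]
          rw [e]; exact h1
    · obtain ⟨i', rfl⟩ : ∃ i', i = i' + 2 := ⟨i - 2, by omega⟩
      have h1 := CL4_smul L _ ha (ih i' (by omega) j k l hk hl)
      have e : α ^ (i'+2) * β ^ j * w ^ k * z ^ l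
          = a • (α ^ i' * β ^ j * w ^ k * z ^ l) := by
        rw [pow_add α, pow_two, h.haa, ← Algebra.commutes, ← Algebra.smul_def,
          smul_mul_assoc, smul_mul_assoc, smul_mul_assoc]
      rw [e]; exact h1

/-- right closure passes from generators to the span -/
theorem CL4_R (L : IntermediateField F K) {α β z w : A} (x : A)
    (hx : ∀ s, e4 α β z w s * x ∈ Submodule.span L (Set.range (e4 α β z w))) :
    ∀ y ∈ Submodule.span L (Set.range (e4 α β z w)),
      y * x ∈ Submodule.span L (Set.range (e4 α β z w)) := by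
  intro y hy
  induction hy using Submodule.span_induction with
  | mem y hy => obtain ⟨s, rfl⟩ := hy; exact hx s
  | zero => rw [zero_mul]; exact Submodule.zero_mem _
  | add y y' _ _ h h' => rw [add_mul]; exact Submodule.add_mem _ h h'
  | smul c y _ h =>
    have : (c • y) * x = c • (y * x) := by
      change ((c : K) • y) * x = (c : K) • (y * x)
      rw [smul_mul_assoc]
    rw [this]; exact Submodule.smul_mem _ _ h

theorem CL4_Lc (L : IntermediateField F K) {α β z w : A} (x : A)
    (hx : ∀ s, x * e4 α β z w s ∈ Submodule.span L (Set.range (e4 α β z w))) :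
    ∀ y ∈ Submodule.span L (Set.range (e4 α β z w)),
      x * y ∈ Submodule.span L (Set.range (e4 α β z w)) := by
  intro y hy
  induction hy using Submodule.span_induction with
  | mem y hy => obtain ⟨s, rfl⟩ := hy; exact hx s
  | zero => rw [mul_zero]; exact Submodule.zero_mem _
  | add y y' _ _ h h' => rw [mul_add]; exact Submodule.add_mem _ h h'
  | smul c y _ h =>
    have : x * (c • y) = c • (x * y) := by
      change x * ((c : K) • y) = (c : K) • (x * y)
      rw [mul_smul_comm]
    rw [this]; exact Submodule.smul_mem _ _ h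

theorem CL4_uE (L : IntermediateField F K) {α β z w : A} {v : Fin 4 → K}
    (hv : ∀ k, v k ∈ L)
    (hα : ∀ y ∈ Submodule.span L (Set.range (e4 α β z w)),
      α * y ∈ Submodule.span L (Set.range (e4 α β z w)))
    (hβ : ∀ y ∈ Submodule.span L (Set.range (e4 α β z w)),
      β * y ∈ Submodule.span L (Set.range (e4 α β z w))) :
    ∀ y ∈ Submodule.span L (Set.range (e4 α β z w)),
      uE α β v * y ∈ Submodule.span L (Set.range (e4 α β z w)) := by
  intro y hy
  rw [uE, add_mul, add_mul, add_mul, smul_mul_assoc, smul_mul_assoc, smul_mul_assoc,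
    smul_mul_assoc, one_mul, mul_assoc]
  exact Submodule.add_mem _ (Submodule.add_mem _ (Submodule.add_mem _
    (CL4_smul L _ (hv 0) hy) (CL4_smul L _ (hv 1) (hα y hy)))
    (CL4_smul L _ (hv 2) (hβ y hy))) (CL4_smul L _ (hv 3) (hα _ (hβ y hy)))

theorem st_CL4 : ST_CL4.{u} := by
  intro F K A _ _ _ _ _ L α β z w a b p r v h ha hb hp hr hv
  set S := Submodule.span L (Set.range (e4 α β z w)) with hS
  have hM := CL4_mem L h ha hb
  rw [← hS] at hM
  have e4def : ∀ s, e4 α β z w s = α ^ (s.1 : ℕ) * β ^ (s.2.1 : ℕ) * w ^ (s.2.2.1 : ℕ) *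
    z ^ (s.2.2.2 : ℕ) := fun s => rfl
  have cab : ∀ i j : ℕ, α ^ i * β ^ j = β ^ j * α ^ i := fun i j =>
    (show Commute α β from h.hab).pow_pow i j
  -- right multiplication by α
  have Rα : ∀ y ∈ S, y * α ∈ S := by
    apply CL4_R
    rintro ⟨i, j, k, l⟩
    rw [e4def]
    have h1 : w ^ (k : ℕ) * α = α * w ^ (k : ℕ) := (show Commute w α from h.hwa).pow_left k
    have h2 : β ^ (j : ℕ) * α = α * β ^ (j : ℕ) := (show Commute β α from h.hab.symm).pow_left j
    have h0 := hM (i+1) j k l k.2 l.2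
    have h3 : z ^ (l : ℕ) * α = α * z ^ (l : ℕ) ∨ z ^ (l : ℕ) * α = - (α * z ^ (l : ℕ)) := by
      fin_cases l
      · left; simp
      · right; simpa using h.hza
    have h4 : α ^ (i : ℕ) * β ^ (j : ℕ) * w ^ (k : ℕ) * (α * z ^ (l : ℕ))
        = α ^ ((i : ℕ) + 1) * β ^ (j : ℕ) * w ^ (k : ℕ) * z ^ (l : ℕ) := by
      rw [← mul_assoc, mul_assoc _ (w ^ (k : ℕ)) α, h1, ← mul_assoc, mul_assoc _ (β ^ (j : ℕ)) α,
        h2, ← mul_assoc, ← pow_succ]
    rcases h3 with h3 | h3
    · rw [mul_assoc _ (z ^ (l : ℕ)) α, h3]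
      simp only at h0 h4 ⊢
      rw [h4]; exact h0
    · rw [mul_assoc _ (z ^ (l : ℕ)) α, h3, mul_neg]
      rw [h4]; exact Submodule.neg_mem _ h0
  -- right multiplication by β
  have Rβ : ∀ y ∈ S, y * β ∈ S := by
    apply CL4_R
    rintro ⟨i, j, k, l⟩
    rw [e4def]
    have h1 : z ^ (l : ℕ) * β = β * z ^ (l : ℕ) := (show Commute z β from h.hzb).pow_left l
    have h0 := hM i (j+1) k l k.2 l.2
    have h3 : w ^ (k : ℕ) * β = β * w ^ (k : ℕ) ∨ w ^ (k : ℕ) * β = - (β * w ^ (k : ℕ)) := by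
      fin_cases k
      · left; simp
      · right; simpa using h.hwb
    rcases h3 with h3 | h3
    · have : α ^ (i : ℕ) * β ^ (j : ℕ) * w ^ (k : ℕ) * z ^ (l : ℕ) * β
        = α ^ (i : ℕ) * β ^ ((j : ℕ) + 1) * w ^ (k : ℕ) * z ^ (l : ℕ) := by
        rw [mul_assoc _ (z ^ (l : ℕ)) β, h1, ← mul_assoc, mul_assoc _ (w ^ (k : ℕ)) β, h3,
          ← mul_assoc, mul_assoc _ (β ^ (j : ℕ)) β, ← pow_succ]
      simp only at this ⊢
      rw [this]; exact h0
    · have : α ^ (i : ℕ) * β ^ (j : ℕ) * w ^ (k : ℕ) * z ^ (l : ℕ) * β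
        = -(α ^ (i : ℕ) * β ^ ((j : ℕ) + 1) * w ^ (k : ℕ) * z ^ (l : ℕ)) := by
        rw [mul_assoc _ (z ^ (l : ℕ)) β, h1, ← mul_assoc, mul_assoc _ (w ^ (k : ℕ)) β, h3,
          mul_neg, neg_mul, ← mul_assoc, mul_assoc _ (β ^ (j : ℕ)) β, ← pow_succ]
      simp only at this ⊢
      rw [this]; exact Submodule.neg_mem _ h0
  -- left multiplication
  have Lα : ∀ y ∈ S, α * y ∈ S := by
    apply CL4_Lc
    rintro ⟨i, j, k, l⟩
    rw [e4def]
    have : α * (α ^ (i : ℕ) * β ^ (j : ℕ) * w ^ (k : ℕ) * z ^ (l : ℕ))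
        = α ^ ((i : ℕ) + 1) * β ^ (j : ℕ) * w ^ (k : ℕ) * z ^ (l : ℕ) := by
      rw [← mul_assoc, ← mul_assoc, ← mul_assoc, ← pow_succ']
    simp only at this ⊢
    rw [this]; exact hM _ _ _ _ k.2 l.2
  have Lβ : ∀ y ∈ S, β * y ∈ S := by
    apply CL4_Lc
    rintro ⟨i, j, k, l⟩
    rw [e4def]
    have h2 : β * α ^ (i : ℕ) = α ^ (i : ℕ) * β := (show Commute β α from h.hab.symm).pow_right i
    have : β * (α ^ (i : ℕ) * β ^ (j : ℕ) * w ^ (k : ℕ) * z ^ (l : ℕ))
        = α ^ (i : ℕ) * β ^ ((j : ℕ) + 1) * w ^ (k : ℕ) * z ^ (l : ℕ) := by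
      rw [← mul_assoc, ← mul_assoc, ← mul_assoc, h2, mul_assoc _ β, ← pow_succ']
    simp only at this ⊢
    rw [this]; exact hM _ _ _ _ k.2 l.2
  have LU : ∀ v' : Fin 4 → K, (∀ k, v' k ∈ L) → ∀ y ∈ S, uE α β v' * y ∈ S :=
    fun v' hv' => CL4_uE L hv' Lα Lβ
  -- right multiplication by z
  have Rz : ∀ y ∈ S, y * z ∈ S := by
    apply CL4_R
    rintro ⟨i, j, k, l⟩
    rw [e4def]
    fin_cases l
    · have h0 := hM i j k 1 k.2 (by norm_num)
      simpa using h0
    · have h0 := hM i j k 0 k.2 (by norm_num)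
      have h1 := Rβ _ h0
      have h2 := CL4_smul L _ hp h0
      have : α ^ (i : ℕ) * β ^ (j : ℕ) * w ^ (k : ℕ) * z ^ 1 * z
          = p • (α ^ (i : ℕ) * β ^ (j : ℕ) * w ^ (k : ℕ) * z ^ 0)
            + α ^ (i : ℕ) * β ^ (j : ℕ) * w ^ (k : ℕ) * z ^ 0 * β := by
        rw [pow_one, pow_zero, mul_one, mul_assoc _ z z, h.hzz, mul_add, ← Algebra.commutes,
          ← Algebra.smul_def]
      have h3 := Submodule.add_mem _ h2 h1
      rw [← this] at h3
      simpa using h3
  -- right multiplication by w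
  have Rw : ∀ y ∈ S, y * w ∈ S := by
    apply CL4_R
    rintro ⟨i, j, k, l⟩
    rw [e4def]
    fin_cases l
    · fin_cases k
      · have h0 := hM i j 1 0 (by norm_num) (by norm_num)
        simpa using h0
      · have h0 := hM i j 0 0 (by norm_num) (by norm_num)
        have h1 := Rα _ h0
        have h2 := CL4_smul L _ hr h0
        have : α ^ (i : ℕ) * β ^ (j : ℕ) * w ^ 1 * z ^ 0 * w
            = r • (α ^ (i : ℕ) * β ^ (j : ℕ) * w ^ 0 * z ^ 0)
              + α ^ (i : ℕ) * β ^ (j : ℕ) * w ^ 0 * z ^ 0 * α := by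
          rw [pow_one, pow_zero, pow_zero, mul_one, mul_one, mul_one, mul_assoc _ w w, h.hww,
            mul_add, ← Algebra.commutes, ← Algebra.smul_def]
        have h3 := Submodule.add_mem _ h2 h1
        rw [← this] at h3
        simpa using h3
    · -- l = 1
      have cU : ∀ v' : Fin 4 → K, ∀ i j : ℕ,
          α ^ i * β ^ j * uE α β v' = uE α β v' * (α ^ i * β ^ j) := by
        intro v' i j
        have c1 : Commute (α ^ i * β ^ j) α :=
          (Commute.refl α).pow_left i |>.mul_left ((show Commute β α from h.hab.symm).pow_left j)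
        have c2 : Commute (α ^ i * β ^ j) β :=
          ((show Commute α β from h.hab).pow_left i).mul_left ((Commute.refl β).pow_left j)
        have c3 : Commute (α ^ i * β ^ j) (uE α β v') := by
          unfold uE
          exact ((((Commute.one_right _).smul_right _).add_right (c1.smul_right _)).add_right
            (c2.smul_right _)).add_right ((c1.mul_right c2).smul_right _)
        exact c3
      fin_cases k
      · have h0 := hM i j 1 1 (by norm_num) (by norm_num)
        have h1 := LU v hv _ h0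
        have : α ^ (i : ℕ) * β ^ (j : ℕ) * w ^ 0 * z ^ 1 * w
            = uE α β v * (α ^ (i : ℕ) * β ^ (j : ℕ) * w ^ 1 * z ^ 1) := by
          rw [pow_one, pow_one, pow_zero, mul_one, mul_assoc _ z w, h.hzw, ← mul_assoc, cU]
          simp only [mul_assoc]
        rw [← this] at h1
        simpa using h1
      · have h0 := hM i j 0 1 (by norm_num) (by norm_num)
        have h1 := Submodule.add_mem _ (CL4_smul L _ hr h0) (Lα _ h0)
        have hv' : ∀ k, (![v 0, v 1, -v 2, -v 3] : Fin 4 → K) k ∈ L := by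
          intro k
          fin_cases k
          · simpa using hv 0
          · simpa using hv 1
          · simpa using hv 2
          · simpa using hv 3
        have h2 := LU _ hv' _ h1
        have hwu : w * uE α β v = uE α β ![v 0, v 1, -v 2, -v 3] * w := by
          unfold uE
          simp only [Matrix.cons_val_zero, Matrix.cons_val_one, Matrix.cons_val]
          simp only [mul_add, add_mul, mul_smul_comm, smul_mul_assoc, neg_smul, mul_one, one_mul]
          rw [h.hwa, h.hwb, ← mul_assoc w α β, h.hwa, mul_assoc α w β, h.hwb]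
          simp only [smul_neg, mul_neg, neg_mul, smul_mul_assoc, mul_assoc]
        have hww' : α ^ (i : ℕ) * β ^ (j : ℕ) * (algebraMap K A r + α) * z
            = r • (α ^ (i : ℕ) * β ^ (j : ℕ) * w ^ 0 * z ^ 1)
              + α * (α ^ (i : ℕ) * β ^ (j : ℕ) * w ^ 0 * z ^ 1) := by
          rw [pow_one, pow_zero, mul_one, mul_add, add_mul, ← Algebra.commutes,
            ← Algebra.smul_def, smul_mul_assoc]
          congr 1
          rw [mul_assoc _ (β ^ (j : ℕ)) α, show β ^ (j : ℕ) * α = α * β ^ (j : ℕ) from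
            (show Commute β α from h.hab.symm).pow_left j, ← mul_assoc, ← pow_succ,
            ← mul_assoc α, ← mul_assoc α, ← pow_succ']
        have : α ^ (i : ℕ) * β ^ (j : ℕ) * w ^ 1 * z ^ 1 * w
            = uE α β ![v 0, v 1, -v 2, -v 3] *
              (r • (α ^ (i : ℕ) * β ^ (j : ℕ) * w ^ 0 * z ^ 1)
              + α * (α ^ (i : ℕ) * β ^ (j : ℕ) * w ^ 0 * z ^ 1)) := by
          rw [← hww', ← h.hww, pow_one, pow_one, mul_assoc _ z w, h.hzw, ← mul_assoc,
            mul_assoc _ w (uE α β v), hwu, ← mul_assoc (α ^ (i : ℕ) * β ^ (j : ℕ)), cU]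
          simp only [mul_assoc]
        rw [← this] at h2
        simpa using h2
  -- conclusion
  intro s t
  have hs : e4 α β z w s ∈ S := Submodule.subset_span ⟨s, rfl⟩
  have hpow : ∀ x : A, (∀ y ∈ S, y * x ∈ S) → ∀ n : ℕ, ∀ y ∈ S, y * x ^ n ∈ S := by
    intro x hx n
    induction n with
    | zero => intro y hy; simpa using hy
    | succ n ih => intro y hy; rw [pow_succ, ← mul_assoc]; exact hx _ (ih y hy)
  rw [e4def t, ← mul_assoc, ← mul_assoc, ← mul_assoc]
  exact hpow z Rz _ _ (hpow w Rw _ _ (hpow β Rβ _ _ (hpow α Rα _ _ hs)))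

end Pool.Agent.Helper75.PX
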